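import Pool.Agent.Helper74.CA.Lib

/-!
Module M5 (`MP_cb0591_al`).
-/

set_option autoImplicit false

namespace Pool.Agent.Helper74.CA

theorem st_M5 (hN4L : ST_N4L) (hA : ST_M5A) (hB : ST_M5B) : ST_M5 := by
  intro k _ L _ _ n d v1 v2 v3 v4 v5 z1 z2 z3 z4 z5 n1 n2 n3 n4 n5 e1 e2 e3 e4 e5 hF
  have hf : ⁅⁅⁅v1, v2⁆, v3⁆, v4⁆ ≠ 0 := by
    intro h
    rw [h, zero_lie] at hF
    exact hF rfl
  have hswap : ⁅⁅v1, v2⁆, v3⁆ = -⁅⁅v1, v3⁆, v2⁆ := d.T1 e1.1 e2.1 e3.1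
  have hcyc : ⁅⁅v1, v2⁆, v3⁆ = ⁅⁅v2, v3⁆, v1⁆ := d.cyc e1.1 e2.1 e3.1
  have c132 : ⁅⁅⁅⁅v1, v3⁆, v2⁆, v4⁆, v5⁆ = 0 → False := by
    intro h
    apply hF
    rw [hswap, neg_lie, neg_lie, h, neg_zero]
  have c231 : ⁅⁅⁅⁅v2, v3⁆, v1⁆, v4⁆, v5⁆ = 0 → False := by
    intro h
    apply hF
    rw [hcyc, h]
  rcases (hN4L k L n d v1 v2 v3 v4 z1 z2 z3 z4 n1 n2 n3 n4 e1 e2 e3 e4).2.2 hf with
    ⟨h4, h⟩ | ⟨hb, h12, h34, hbc⟩ | ⟨hb, h13, h24, hbc⟩ | ⟨hb, h14, h23, hbc⟩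
  · subst h4
    have hall : z1 = -1 ∧ z2 = -1 ∧ z3 = -1 := by
      rcases h with ⟨h1, h2⟩ | ⟨h1, h3⟩ | ⟨h2, h3⟩
      · refine ⟨h1, h2, ?_⟩
        subst h1 h2
        by_contra hx
        exact hF (hB k L n d v1 v2 v3 v4 v5 z3 z5 n3 hx n5 e1 e2 e3 e4 e5)
      · refine ⟨h1, ?_, h3⟩
        subst h1 h3
        by_contra hx
        exact c132 (hB k L n d v1 v3 v2 v4 v5 z2 z5 n2 hx n5 e1 e3 e2 e4 e5)
      · refine ⟨?_, h2, h3⟩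
        subst h2 h3
        by_contra hx
        exact c231 (hB k L n d v2 v3 v1 v4 v5 z1 z5 n1 hx n5 e2 e3 e1 e4 e5)
    obtain ⟨h1, h2, h3⟩ := hall
    refine ⟨h1, h2, h3, rfl, ?_⟩
    subst h1 h2 h3
    by_contra hz5
    have hY : Ev d (1 + 1 + 1) (-1 * -1 * -1) ⁅⁅v1, v2⁆, v3⁆ := (e1.lie e2).lie e3
    have hY0 : (-1 * -1 * -1 : k) ≠ 1 := by
      rw [neg_mul_neg, one_mul, one_mul]
      exact d.neg_one
    have hT := d.Tev (by norm_num) hY0 hY e4.1 e5.1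
    have h5 : ⁅⁅⁅v1, v2⁆, v3⁆, v5⁆ = 0 := by
      by_contra hne
      have hm : ¬ ((-1 : k) * -1 ≠ 1) := by
        rw [neg_mul_neg, one_mul]
        exact fun h => h rfl
      rcases (hN4L k L n d v1 v2 v3 v5 (-1) (-1) (-1) z5 n1 n2 n3 n5 e1 e2 e3 e5).2.2 hne with
        ⟨h, -⟩ | ⟨h, -⟩ | ⟨h, -⟩ | ⟨h, -⟩
      · exact hz5 h
      · exact hm h
      · exact hm h
      · exact hm h
    apply hF
    rw [hT, h5, zero_lie, neg_zero]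
  · subst h12 h34
    exact absurd (hA k L n d v1 v2 v3 v4 v5 z1 z3 z5 n1 n3 n5 e1 e2 e3 e4 e5 hb hbc) hF
  · subst h13 h24
    exact (c132 (hA k L n d v1 v3 v2 v4 v5 z1 z2 z5 n1 n2 n5 e1 e3 e2 e4 e5 hb hbc)).elim
  · subst h14 h23
    have hb' : z2 * z2 ≠ 1 := by
      intro h
      apply hb
      have h1 : z1 * z1 * (z2 * z2) = 1 := by
        calc z1 * z1 * (z2 * z2) = (z1 * z2) * (z1 * z2) := by ring
          _ = 1 := by rw [hbc, one_mul]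
      rwa [h, mul_one] at h1
    exact (c231 (hA k L n d v2 v3 v1 v4 v5 z2 z1 z5 n2 n1 n5 e2 e3 e1 e4 e5 hb'
      (by rw [mul_comm]; exact hbc))).elim

end Pool.Agent.Helper74.CA
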